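import Pool.Agent.AFT.Fin
import Pool.Agent.AVF.ISO
import Pool.Agent.AVF.ALL1

/-!
# Martin's conjecture one level up: the core for affine structures (helper97)

Let `T` be a theory in a countable language whose models on `ℕ` are affine structures, with fewer than
continuum many countable models.  Two models on `ℕ` with the same realised ages are isomorphic, and tuples with
the same age are exchanged by an isomorphism.  (The age of a tuple is the set of the types of its finite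
extensions.)
-/

set_option autoImplicit false
set_option linter.unusedSectionVars false
set_option linter.unusedVariables false

namespace Pool.Agent.MAR

open Set FirstOrder Pool.Agent.AVC Pool.Agent.AVF Pool.Agent.AFT
open Pool.Agent.WOM (Mon IsEl PerfT CtT ThS Small)

section

variable {R : Type} [RSig R] {ι : Type}

/-- the age determines the level-one type -/
theorem atp1_of_age {M N : Type} [AddCommGroup M] [AfS R M] [AddCommGroup N] [AfS R N]
    {x : ι → M} {y : ι → N} (h : age (R := R) M x = age (R := R) N y) :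
    atp1 (R := R) M x = atp1 (R := R) N y := by
  have key : ∀ {M N : Type} [AddCommGroup M] [AfS R M] [AddCommGroup N] [AfS R N]
      {x : ι → M} {y : ι → N}, age (R := R) M x = age (R := R) N y →
      ∀ V : L1 R ι, ASat1 V M x → ASat1 V N y := by
    intro M N _ _ _ _ x y h V hV
    obtain ⟨t, ht⟩ := hV
    have h1 : (⟨V.1, app M (Sum.elim x t)⟩ : (k : ℕ) × Set (PP R (ι ⊕ Fin k))) ∈
        age (R := R) M x := ⟨t, rfl⟩
    rw [h] at h1
    obtain ⟨t', ht'⟩ := h1
    refine ⟨t', fun φ hφ => ?_⟩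
    have h2 : φ ∈ app M (Sum.elim x t) := ht φ hφ
    have h3 : φ ∈ app N (Sum.elim y t') := by
      rw [ht']
      exact h2
    exact h3
  ext V
  exact ⟨key h V, key h.symm V⟩

end

section

variable {L : FirstOrder.Language.{0, 0}} {add : L.Formula (Fin 3)} {ι κ : Type}
  [Countable L.Symbols] {U : Type} [L.Structure U] [AddCommGroup U]

/-- the translation of a type -/
def trA (hadd : IsAdd add U) {α : Type} (p : Set (L.Formula α)) :
    Set (PP (ZU L U) α) := {φ | foU hadd φ ∈ p}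

/-- the type of a tuple in an elementary substructure and in the structure on `ℕ` -/
theorem app_pull (hadd : IsAdd add U) {N : Submodule (ZU L U) (UA L U)}
    (hN : El (UA L U) N) {u : ℕ → U} {S : L.Structure ℕ}
    (hS : ∀ (α : Type) [Finite α] (φ : L.Formula α) (a : α → ℕ),
      @FirstOrder.Language.Formula.Realize L ℕ S α φ a ↔ φ.Realize (u ∘ a))
    [Finite ι] (x : ι → N) (x' : ι → ℕ) (hx : ∀ i, u (x' i) = (x i : UA L U)) :
    app (R := ZU L U) N x = trA hadd (@tpS L _ ℕ S x') := by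
  rw [el_app hN]
  ext φ
  have h1 : φ ∈ trA hadd (@tpS L _ ℕ S x') ↔
      FirstOrder.Language.Formula.Realize (foU hadd φ) (u ∘ x') := hS _ _ _
  rw [h1, foU_iff]
  have h2 : (u ∘ x' : ι → U) = fun i => ((x i : N) : UA L U) := funext hx
  rw [h2]
  exact Iff.rfl

/-- the age of a tuple in an elementary substructure and in the structure on `ℕ` -/
theorem age_pull (hadd : IsAdd add U) {N : Submodule (ZU L U) (UA L U)}
    (hN : El (UA L U) N) {u : ℕ → U} {S : L.Structure ℕ} (hr : range u = {x : U | x ∈ N})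
    (hS : ∀ (α : Type) [Finite α] (φ : L.Formula α) (a : α → ℕ),
      @FirstOrder.Language.Formula.Realize L ℕ S α φ a ↔ φ.Realize (u ∘ a))
    {n : ℕ} (x : Fin n → N) (x' : Fin n → ℕ)
    (hx : ∀ i, u (x' i) = (x i : UA L U)) :
    age (R := ZU L U) N x = (fun σ : (k : ℕ) × Set (L.Formula (Fin n ⊕ Fin k)) =>
      (⟨σ.1, trA hadd σ.2⟩ : (k : ℕ) × Set (PP (ZU L U) (Fin n ⊕ Fin k)))) ''
        (@ageL L (Fin n) ℕ S x') := by
  have key : ∀ (k : ℕ) (c : Fin k → N) (c' : Fin k → ℕ), (∀ i, u (c' i) = (c i : UA L U)) →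
      app (R := ZU L U) N (Sum.elim x c) = trA hadd (@tpS L _ ℕ S (Sum.elim x' c')) := by
    intro k c c' hc
    refine app_pull hadd hN hS _ _ ?_
    rintro (i | i)
    · exact hx i
    · exact hc i
  ext ⟨k, p⟩
  constructor
  · rintro ⟨c, hc⟩
    have h1 : ∀ i, ∃ m, u m = ((c i : N) : UA L U) := fun i => by
      have h2 : ((c i : N) : UA L U) ∈ range u := by
        rw [hr]
        exact (c i).2
      exact h2
    choose c' hc' using h1
    refine ⟨⟨k, @tpS L _ ℕ S (Sum.elim x' c')⟩, ⟨c', rfl⟩, ?_⟩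
    show (⟨k, trA hadd (@tpS L _ ℕ S (Sum.elim x' c'))⟩ :
      (k : ℕ) × Set (PP (ZU L U) (Fin n ⊕ Fin k))) = ⟨k, p⟩
    have hc2 : app (R := ZU L U) N (Sum.elim x c) = p := hc
    rw [← key k c c' hc', hc2]
  · rintro ⟨⟨k', q⟩, ⟨c', hc'⟩, h⟩
    obtain ⟨rfl, h2⟩ := Sigma.mk.inj_iff.1 h
    have h3 := eq_of_heq h2
    have h1 : ∀ i, u (c' i) ∈ N := fun i => by
      have h2 : u (c' i) ∈ {x : U | x ∈ N} := by
        rw [← hr]
        exact mem_range_self _
      exact h2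
    refine ⟨fun i => ⟨u (c' i), h1 i⟩, ?_⟩
    show app (R := ZU L U) N (Sum.elim x fun i => ⟨u (c' i), h1 i⟩) = p
    rw [key _ _ c' (fun i => rfl), ← h3]
    have hc2 : @tpS L _ ℕ S (Sum.elim x' c') = q := hc'
    rw [hc2]

omit [Countable L.Symbols] in
/-- exactness depends only on the age -/
theorem exact_of_age {R : Type} [RSig R] {V : Ad R} {P Q : Ad R} (hP : InK V P) (hQ : InK V Q)
    {n : ℕ} {x : Fin n → P} {y : Fin n → Q} (h : age (R := R) P x = age (R := R) Q y)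
    {D : (LgU V).Fam (Fin n)} (hD : (LgU V).Exact D ⟨P, hP⟩ x) :
    (LgU V).Exact D ⟨Q, hQ⟩ y := by
  obtain ⟨hD1, hD2, hD3⟩ := hD
  have h4 : ∀ W : (LgU V).Fam (Fin n), (LgU V).Is False W → (W ⟨Q, hQ⟩ y ↔ W ⟨P, hP⟩ x) := by
    rintro W ⟨(W' : L1 R (Fin n)), -, hW'⟩
    have h5 : W' ∈ atp1 (R := R) Q y ↔ W' ∈ atp1 (R := R) P x := by
      rw [atp1_of_age h]
    exact (hW' ⟨Q, hQ⟩ y).trans (h5.trans (hW' ⟨P, hP⟩ x).symm)
  exact ⟨hD1, (h4 D hD1).2 hD2, fun W hW hWy => hD3 W hW ((h4 W hW).1 hWy)⟩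

/-- **The homogeneity theorem for the structures on `ℕ`**, in the theory of the saturated structure `U` -/
theorem core_U (hM : Mon L U) (hadd : IsAdd add U) (hB : BCos L U)
    (hnp : ¬ PerfT L (L.completeTheory U)) (S S' : L.Structure ℕ)
    (hS : @FirstOrder.Language.Theory.Model L ℕ S (L.completeTheory U))
    (hS' : @FirstOrder.Language.Theory.Model L ℕ S' (L.completeTheory U))
    (hag : @agesL L ℕ S = @agesL L ℕ S') (n : ℕ) (x x' : Fin n → ℕ)
    (hx : @ageL L (Fin n) ℕ S x = @ageL L (Fin n) ℕ S' x') :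
    ∃ σ : ℕ ≃ ℕ, (∀ i, σ (x i) = x' i) ∧ ∀ (m : ℕ) (φ : L.Formula (Fin m)) (a : Fin m → ℕ),
      @FirstOrder.Language.Formula.Realize L ℕ S _ φ a ↔
        @FirstOrder.Language.Formula.Realize L ℕ S' _ φ (σ ∘ a) := by
  classical
  have _ : Countable U := hM.ctb
  have _ : Infinite U := hM.inf
  have hMA := monA_of_mon hM hadd
  have hf := fewT_of hM hadd hB (fewAges_of ‹_› hnp)
  have h1 := all_T1U (ZU L U) (UA L U) hMA hf
  have h2 := all_UMLU (ZU L U) (UA L U) hMA hf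
  obtain ⟨u, hu, huE, huF⟩ := @exists_emb L U _ hM ℕ S inferInstance hS
  obtain ⟨N, hNu, hN⟩ := el_of_isEl hadd huE
  obtain ⟨u', hu', huE', huF'⟩ := @exists_emb L U _ hM ℕ S' inferInstance hS'
  obtain ⟨N', hNu', hN'⟩ := el_of_isEl hadd huE'
  have hr : range u = {x : U | x ∈ N} := hNu.symm
  have hr' : range u' = {x : U | x ∈ N'} := hNu'.symm
  have hm : ∀ m, u m ∈ N := fun m => by
    have h2 : u m ∈ {x : U | x ∈ N} := by
      rw [← hr]
      exact mem_range_self _
    exact h2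
  have hm' : ∀ m, u' m ∈ N' := fun m => by
    have h2 : u' m ∈ {x : U | x ∈ N'} := by
      rw [← hr']
      exact mem_range_self _
    exact h2
  let f : ℕ → N := fun m => ⟨u m, hm m⟩
  let f' : ℕ → N' := fun m => ⟨u' m, hm' m⟩
  have hf1 : Function.Bijective f := by
    refine ⟨fun i j h => hu (congrArg Subtype.val h), ?_⟩
    rintro ⟨x, hx⟩
    have hx' : x ∈ range u := by
      rw [hr]
      exact hx
    obtain ⟨m, hm⟩ := hx'
    exact ⟨m, Subtype.ext hm⟩
  have hf1' : Function.Bijective f' := by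
    refine ⟨fun i j h => hu' (congrArg Subtype.val h), ?_⟩
    rintro ⟨x, hx⟩
    have hx' : x ∈ range u' := by
      rw [hr']
      exact hx
    obtain ⟨m, hm⟩ := hx'
    exact ⟨m, Subtype.ext hm⟩
  let F := Equiv.ofBijective f hf1
  let F' := Equiv.ofBijective f' hf1'
  have hK : InK (UA L U) N := ⟨N, hN, ⟨AIe.refl _ _⟩⟩
  have hK' : InK (UA L U) N' := ⟨N', hN', ⟨AIe.refl _ _⟩⟩
  let P : Ad (ZU L U) := ⟨N⟩
  let Q : Ad (ZU L U) := ⟨N'⟩
  let LG := LgU (UA L U)
  let P0 : LG.K := ⟨P, hK⟩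
  let Q0 : LG.K := ⟨Q, hK'⟩
  -- ages of images
  have eage : ∀ {k : ℕ} (y y' : Fin k → ℕ), @ageL L (Fin k) ℕ S y = @ageL L (Fin k) ℕ S' y' →
      age (R := ZU L U) N (f ∘ y) = age (R := ZU L U) N' (f' ∘ y') := by
    intro k y y' h
    rw [age_pull hadd hN hr (fun α _ φ a => huF α φ a) (f ∘ y) y (fun i => rfl),
      age_pull hadd hN' hr' (fun α _ φ a => huF' α φ a) (f' ∘ y') y' (fun i => rfl), h]
  have hex : ∀ (k : ℕ) (D : LG.Fam (Fin k)), (∃ z : Fin k → LG.car P0, LG.Exact D P0 z) ↔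
      ∃ z : Fin k → LG.car Q0, LG.Exact D Q0 z := by
    intro k D
    constructor
    · rintro ⟨z, hz⟩
      have h3 : (⟨k, @ageL L (Fin k) ℕ S (F.symm ∘ z)⟩ :
          (n : ℕ) × Set ((k : ℕ) × Set (L.Formula (Fin n ⊕ Fin k)))) ∈ @agesL L ℕ S := ⟨_, rfl⟩
      rw [hag] at h3
      obtain ⟨y', hy'⟩ := h3
      have h4 : age (R := ZU L U) N (f ∘ (F.symm ∘ z)) = age (R := ZU L U) N' (f' ∘ y') :=
        eage _ _ hy'.symm
      have h5 : f ∘ (F.symm ∘ z) = z := by
        funext i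
        exact F.apply_symm_apply (z i)
      rw [h5] at h4
      exact ⟨f' ∘ y', exact_of_age hK hK' h4 hz⟩
    · rintro ⟨z, hz⟩
      have h3 : (⟨k, @ageL L (Fin k) ℕ S' (F'.symm ∘ z)⟩ :
          (n : ℕ) × Set ((k : ℕ) × Set (L.Formula (Fin n ⊕ Fin k)))) ∈ @agesL L ℕ S' := ⟨_, rfl⟩
      rw [← hag] at h3
      obtain ⟨y', hy'⟩ := h3
      have h4 : age (R := ZU L U) N (f ∘ y') = age (R := ZU L U) N' (f' ∘ (F'.symm ∘ z)) :=
        eage _ _ hy'
      have h5 : f' ∘ (F'.symm ∘ z) = z := by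
        funext i
        exact F'.apply_symm_apply (z i)
      rw [h5] at h4
      exact ⟨f ∘ y', exact_of_age hK' hK h4.symm hz⟩
  obtain ⟨D, hD⟩ := lgU_UML h2 P0 (Fin n) (f ∘ x)
  have hD' : LG.Exact D Q0 (f' ∘ x') := exact_of_age hK hK' (eage x x' hx) hD
  have hcP : Countable P := inK_countable hMA.ctbl hK
  have hcQ : Countable Q := inK_countable hMA.ctbl hK'
  obtain ⟨g, hg1, hg2⟩ := AFH.thm_END (L := LG) (lgU_T1 h1) (lgU_UML h2) P0 Q0
    hcP hcQ hex n (f ∘ x) (f' ∘ x') D hD hD'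
  let E : N ≃ N' := g
  let σ : ℕ ≃ ℕ := (F.trans E).trans F'.symm
  have hσ : ∀ m, f' (σ m) = E (f m) := fun m => F'.apply_symm_apply (E (F m))
  refine ⟨σ, fun i => ?_, fun m φ a => ?_⟩
  · have h3 : f' (σ (x i)) = f' (x' i) := (hσ _).trans (hg1 i)
    exact hf1'.1 h3
  · have e1 : ∀ ψ : PP (ZU L U) (Fin m), ASat ψ N (f ∘ a) ↔ ASat ψ N' (E ∘ (f ∘ a)) := by
      intro ψ
      have h3 := hg2 m (fun K z => ASat1 (ofRe {ψ}) K.1 z) ⟨ofRe {ψ}, fun h => h.elim,
        fun K z => Iff.rfl⟩ (f ∘ a)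
      have h4 : ASat1 (ofRe {ψ}) N (f ∘ a) ↔ ASat1 (ofRe {ψ}) N' (E ∘ (f ∘ a)) := h3
      rw [asat1_ofRe, asat1_ofRe] at h4
      constructor
      · intro h
        exact h4.1 (fun θ hθ => by
          rw [mem_singleton_iff.1 hθ]
          exact h) ψ rfl
      · intro h
        exact h4.2 (fun θ hθ => by
          rw [mem_singleton_iff.1 hθ]
          exact h) ψ rfl
    have h3 : app (R := ZU L U) (UA L U) (fun i => ((f (a i) : N) : UA L U)) =
        app (UA L U) (fun i => ((f' (σ (a i)) : N') : UA L U)) := by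
      rw [← el_app hN, ← el_app hN']
      ext ψ
      have h4 : (fun i => f' (σ (a i))) = E ∘ (f ∘ a) := by
        funext i
        exact hσ (a i)
      show ASat ψ N (f ∘ a) ↔ ASat ψ N' (fun i => f' (σ (a i)))
      rw [h4]
      exact e1 ψ
    have h5 : tpS (L := L) (u ∘ a) = tpS (u' ∘ (σ ∘ a)) := tp_of_app hM hadd hB h3
    have h6 : φ ∈ tpS (L := L) (u ∘ a) ↔ φ ∈ tpS (L := L) (u' ∘ (σ ∘ a)) := by rw [h5]
    exact (huF _ φ a).trans (h6.trans (huF' _ φ (σ ∘ a)).symm)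

end

end Pool.Agent.MAR
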